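import Pool.Agent.T9h57.GD.Few

set_option autoImplicit false

/-! Prime pairs in all residue classes of regular moduli: the theorem for real `x` and classes given by integers.
Adapted from `R460/GQ/Conv`. -/

namespace Pool.Agent.T9h57.GD

open Finset
open Pool.Agent.R460.GQ
open Pool.Agent.R460.GS (mod_iff' gcd_toNat real_log)
open Pool.Agent.T9h57.PK (rad)

theorem gd_real (ρ : ℝ) (hρ : 0 < ρ) (A B C : ℕ) :
    ∃ c : ℕ, ∀ T : ℕ, ∃ x₀ : ℝ, ∀ x : ℝ, x₀ ≤ x → ∃ D : Finset ℕ, (D.card : ℝ) ≤ Real.log x ^ c ∧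
      (∀ d ∈ D, Real.log x ^ T < (rad d : ℝ)) ∧
      ∀ m : ℕ, 1 ≤ m → (m : ℝ) ≤ x ^ (2 / 3 - ρ) → (∀ d ∈ D, ¬ d ∣ m) → ∀ b : ℤ,
        (exceptional B C x m b).Finite ∧ ((exceptional B C x m b).ncard : ℝ) ≤ x / (m * Real.log x ^ A) := by
  classical
  obtain ⟨ρ', hρ'⟩ : ∃ ρ', ρ' = min ρ (1 / 3) := ⟨_, rfl⟩
  have hρ0 : 0 < ρ' := by rw [hρ']; exact lt_min hρ (by norm_num)
  obtain ⟨c, h0⟩ := gdl_all ρ' hρ0 (by rw [hρ']; exact min_le_right _ _) (A + 1) B (C + 1)
  refine ⟨c + 1, fun T => ?_⟩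
  obtain ⟨X₀, h0⟩ := h0 T
  obtain ⟨x₁, h1⟩ := Filter.eventually_atTop.1 (real_log 1 (s := 1) one_pos (2 ^ (C + 5) + 2 ^ c + 100))
  refine ⟨max (max x₁ X₀) 4, fun x hx => ?_⟩
  obtain ⟨hL, -⟩ := h1 x ((le_max_left _ _).trans ((le_max_left _ _).trans hx))
  have hxX₀ : (X₀ : ℝ) ≤ x := (le_max_right _ _).trans ((le_max_left _ _).trans hx)
  have hx4 : 4 ≤ x := (le_max_right _ _).trans hx
  have hx0 : 0 < x := by linarith
  obtain ⟨X, hX⟩ : ∃ X, X = ⌈x⌉₊ := ⟨_, rfl⟩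
  have hxX : x ≤ X := by rw [hX]; exact Nat.le_ceil x
  have hXx : (X : ℝ) ≤ x + 1 := by rw [hX]; exact (Nat.ceil_lt_add_one hx0.le).le
  have hX2 : (X : ℝ) ≤ 2 * x := by linarith
  have hXX₀ : X₀ ≤ X := by exact_mod_cast hxX₀.trans hxX
  have hX0 : (0 : ℝ) < X := by linarith
  have hLX : Real.log x ≤ Real.log X := Real.log_le_log hx0 hxX
  have hLX2 : Real.log X ≤ 2 * Real.log x := by
    have h2 : Real.log X ≤ Real.log (2 * x) := Real.log_le_log hX0 hX2
    rw [Real.log_mul (by norm_num) hx0.ne'] at h2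
    have := Real.log_two_lt_d9
    have h3 : (0 : ℝ) < 2 ^ (C + 5) := by positivity
    have h3' : (0 : ℝ) < 2 ^ c := by positivity
    linarith
  obtain ⟨l, hl⟩ : ∃ l, l = Real.log x := ⟨_, rfl⟩
  obtain ⟨L, hLd⟩ : ∃ L, L = Real.log (X : ℝ) := ⟨_, rfl⟩
  have hp5 : (0 : ℝ) < 2 ^ (C + 5) := by positivity
  have hpc : (0 : ℝ) < 2 ^ c := by positivity
  have hl1 : 1 ≤ l := by rw [hl]; linarith
  have hl0 : 0 < l := by linarith
  obtain ⟨D, hD1, hD2, h0⟩ := h0 X hXX₀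
  refine ⟨D, ?_, ?_, fun m hm1 hm hmD b => ?_⟩
  · refine hD1.trans ?_
    rw [← hLd, ← hl]
    have hL0' : 0 ≤ L := by rw [hLd]; exact Real.log_natCast_nonneg _
    calc L ^ c ≤ (2 * l) ^ c := pow_le_pow_left₀ hL0' (by rw [hl, hLd]; exact hLX2) _
      _ = 2 ^ c * l ^ c := mul_pow _ _ _
      _ ≤ l * l ^ c := mul_le_mul_of_nonneg_right (by rw [← hl] at hL; linarith) (by positivity)
      _ = l ^ (c + 1) := by ring
  · intro d hd
    refine lt_of_le_of_lt ?_ (hD2 d hd)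
    rw [← hl]
    exact pow_le_pow_left₀ hl0.le (by rw [hl]; exact hLX) _
  have hm0 : (0 : ℝ) < m := by exact_mod_cast hm1
  have hmX : (m : ℝ) ≤ (X : ℝ) ^ (2 / 3 - ρ') := by
    refine hm.trans ?_
    have e1 : x ^ (2 / 3 - ρ) ≤ x ^ (2 / 3 - ρ') :=
      Real.rpow_le_rpow_of_exponent_le (by linarith) (by
        have : ρ' ≤ ρ := by rw [hρ']; exact min_le_left _ _
        linarith)
    refine e1.trans (Real.rpow_le_rpow hx0.le hxX ?_)
    have : ρ' ≤ 1 / 3 := by rw [hρ']; exact min_le_right _ _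
    linarith
  have hmain := h0 m hm1 hmX hmD (b % (m : ℤ)).toNat
  rw [← hl] at hL hLX hLX2
  rw [← hLd] at hLX hLX2 hmain
  have hL0 : 0 < L := by linarith
  have hsub : exceptional B C x m b ⊆ ((badH B (C + 1) X m (b % (m : ℤ)).toNat : Finset ℕ) : Set ℕ) := by
    rintro d ⟨d1, d2, d3, d4, d5⟩
    rw [mem_coe]
    unfold badH
    rw [mem_filter, mem_Icc, ← hLd]
    have k1 : (d : ℝ) ≤ X / L ^ (C + 1 + 4) := by
      refine d2.trans ?_
      rw [← hl, div_le_div_iff₀ (by positivity) (by positivity)]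
      have k2 : L ^ (C + 1 + 4) ≤ l ^ (C + 6) := by
        calc L ^ (C + 1 + 4) ≤ (2 * l) ^ (C + 5) := by
              rw [show C + 1 + 4 = C + 5 by ring]
              exact pow_le_pow_left₀ hL0.le hLX2 _
          _ = 2 ^ (C + 5) * l ^ (C + 5) := mul_pow _ _ _
          _ ≤ l * l ^ (C + 5) := mul_le_mul_of_nonneg_right (by linarith) (by positivity)
          _ = l ^ (C + 6) := by ring
      exact mul_le_mul hxX k2 (by positivity) hX0.le
    refine ⟨⟨d1, ?_⟩, k1, d3.two_dvd, ?_, ?_⟩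
    · have : (d : ℝ) ≤ X := k1.trans (div_le_self hX0.le (one_le_pow₀ (by linarith)))
      exact_mod_cast this
    · rw [mod_iff' d m b hm1 d4]
    · intro hgood
      apply d5
      intro q a hq1 hq2 ha had y hy2 hyx
      have h2 := hgood q a hq1 (hq2.trans (by
        rw [← hl, ← hLd]
        exact pow_le_pow_left₀ hl0.le hLX _)) ha had y hy2 (hyx.trans hxX)
      have e1 : main d y q = Pool.Agent.H560R3.GB.sing d / Pool.Agent.W93.PP.Cnt q d *
          Pool.Agent.W93.PP.Li2 y := by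
        unfold main Pool.Agent.H560R3.GB.sing Pool.Agent.W93.PP.Cnt Pool.Agent.W93.PP.Li2
        ring
      have e2 : pairs d y a q = Pool.Agent.W93.PP.pc d y a q := rfl
      rw [e1, e2]
      refine h2.trans ?_
      rw [← hLd, ← hl, div_le_div_iff₀ (by positivity) (by positivity)]
      calc (X : ℝ) * l ^ C ≤ (2 * x) * l ^ C := mul_le_mul_of_nonneg_right hX2 (by positivity)
        _ ≤ x * (l * l ^ C) := by
            have k3 : 2 ≤ l := by linarith
            have k4 : 0 ≤ x * l ^ C := by positivity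
            nlinarith
        _ = x * l ^ (C + 1) := by ring
        _ ≤ x * L ^ (C + 1) := by
            apply mul_le_mul_of_nonneg_left _ hx0.le
            exact pow_le_pow_left₀ hl0.le hLX _
  refine ⟨(finite_toSet _).subset hsub, ?_⟩
  have hc : ((exceptional B C x m b).ncard : ℝ) ≤ ((badH B (C + 1) X m (b % (m : ℤ)).toNat).card : ℝ) := by
    have := Set.ncard_le_ncard hsub (finite_toSet _)
    rw [Set.ncard_coe_finset] at this
    exact_mod_cast this
  refine hc.trans (hmain.trans ?_)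
  rw [← hl, div_le_div_iff₀ (by positivity) (by positivity)]
  have k5 : l ^ (A + 1) ≤ L ^ (A + 1) := pow_le_pow_left₀ hl0.le hLX _
  calc (X : ℝ) * (m * l ^ A) ≤ (2 * x) * (m * l ^ A) := mul_le_mul_of_nonneg_right hX2 (by positivity)
    _ ≤ x * (m * (l * l ^ A)) := by
        have k3 : 2 ≤ l := by linarith
        have k4 : 0 ≤ x * (m * l ^ A) := by positivity
        nlinarith
    _ = x * (m * l ^ (A + 1)) := by ring
    _ ≤ x * (m * L ^ (A + 1)) := by gcongr

end Pool.Agent.T9h57.GD
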