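import Pool.Agent.R460.GP.Core
import Pool.Agent.R460.GR.D5
import Pool.Agent.T9h57.GL.B3

set_option autoImplicit false

/-! The mean square of a correlation in a residue class of a regular modulus. Adapted from `R460/GP/Core3`. -/

namespace Pool.Agent.T9h57.GD

open Finset
open Pool.Agent.Y883.GJ
open Pool.Agent.R460.GS
open Pool.Agent.R460.GP
open Pool.Agent.R460.GR (RegAt)
open Pool.Agent.H807R2.Dav (ee)
open Pool.Agent.Y614.GJ.Core (P P_nonneg S_le P_le q_le_phi card_above gcd_above dirich ev_log)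
open Pool.Agent.Y614.GJ.CoreC (S_leC)

/-- CORE3P: the mean square of a correlation in a residue class of a regular modulus -/
def Core3PStm : Prop := ∀ (A : ℕ) (ρ₁ ρ₂ : ℝ), 0 < ρ₂ → ρ₂ < ρ₁ → ∃ A₁ : ℕ, ∀ C : ℕ, ∃ A₂ : ℕ, ∀ C₃ : ℕ, ∃ U₁ : ℕ,
  ∀ K : ℕ, ∃ U N₀ : ℕ, ∀ N : ℕ, N₀ ≤ N → ∀ F G : ℕ → ℂ, BdAt N F → BdAt N G →
  MinAt N ρ₂ A₁ C G → MajAt N ρ₂ A₂ C C₃ G → ApAt N K U G → NcAt N U G →
  ∀ (q : ℕ) [NeZero q], (q : ℝ) ≤ (N : ℝ) ^ (7 / 10 - ρ₁) → RegAt N C K U₁ G q → ∀ a : ZMod q,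
  ∀ y₁ y₂ : ℕ, y₁ ≤ N → y₂ ≤ N →
    ∑ n ∈ (Icc (-(N : ℤ)) N).filter (fun n : ℤ => (n : ZMod q) = a), ‖cvd F G y₁ y₂ n‖ ^ 2 ≤
        (N : ℝ) ^ 3 / (q * Real.log N ^ A)

theorem core3P (h3C : LiftCStm) (h3 : LiftStm) (h4C : ParsCStm) (h4 : ParsStm) (h5 : OrthStm) (h7 : NonUStm) :
    Core3PStm := by
  classical
  intro A ρ₁ ρ₂ hρ2 hρ12
  refine ⟨A + 11, fun C => ?_⟩
  obtain ⟨A', hA'⟩ : ∃ A', A' = A + 2 * C + 9 := ⟨_, rfl⟩
  refine ⟨A' + 4, fun C₃ => ⟨C₃ + A' + 4, fun K => ?_⟩⟩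
  obtain ⟨c, hc⟩ := h7
  obtain ⟨U₁, hU₁⟩ : ∃ U₁, U₁ = C₃ + A' + 4 := ⟨_, rfl⟩
  obtain ⟨N₃, hN₃⟩ := Filter.eventually_atTop.1 (ev_log C (s := ρ₁ - ρ₂) (by linarith) 200)
  refine ⟨K + C + 1 + U₁ + 2 * (A' + 9) + 4 + 2 * c, max N₃ 1, ?_⟩
  intro N hN F G hF hG hMin hMaj hAp hNc q _ hq hReg a y₁ y₂ hy₁ hy₂
  obtain ⟨U, hU⟩ : ∃ U, U = K + C + 1 + U₁ + 2 * (A' + 9) + 4 + 2 * c := ⟨_, rfl⟩
  rw [← hU] at hAp hNc
  have hNN₃ : N₃ ≤ N := le_trans (le_max_left _ _) hN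
  have hN1 : 1 ≤ N := le_trans (le_max_right _ _) hN
  obtain ⟨hL200, hLC⟩ := hN₃ N hNN₃
  have hbF := bd_sq hF (by linarith)
  have hbG := bd_sq hG (by linarith)
  obtain ⟨L, hL⟩ : ∃ L, L = Real.log (N : ℝ) := ⟨_, rfl⟩
  rw [← hL] at hL200 hLC hbF hbG ⊢
  have hL8 : 8 ≤ L := by linarith
  have hL0 : 0 < L := by linarith
  have hL1 : 1 ≤ L := by linarith
  have hN0 : (0 : ℝ) < N := by exact_mod_cast hN1
  have hNr1 : (1 : ℝ) ≤ N := by exact_mod_cast hN1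
  have hq0 : (0 : ℝ) < q := by exact_mod_cast NeZero.pos q
  have hLC1 : 1 ≤ L ^ C := one_le_pow₀ hL1
  have hqLC' : (q : ℝ) * L ^ C ≤ (N : ℝ) ^ (7 / 10 - ρ₂) := by
    calc (q : ℝ) * L ^ C ≤ (N : ℝ) ^ (7 / 10 - ρ₁) * (N : ℝ) ^ (ρ₁ - ρ₂) := by gcongr
      _ = (N : ℝ) ^ (7 / 10 - ρ₂) := by
          rw [← Real.rpow_add hN0]
          congr 1
          ring
  have hpowN : (N : ℝ) ^ (7 / 10 - ρ₂) ≤ N := by
    calc (N : ℝ) ^ (7 / 10 - ρ₂) ≤ (N : ℝ) ^ (1 : ℝ) :=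
          Real.rpow_le_rpow_of_exponent_le hNr1 (by linarith)
      _ = N := Real.rpow_one _
  have hqLC : (q : ℝ) * L ^ C ≤ N := hqLC'.trans hpowN
  have hqN : (q : ℝ) ≤ N := by
    refine le_trans ?_ hqLC
    nlinarith
  have hq2 : (q : ℝ) ≤ (N : ℝ) ^ (7 / 10 - ρ₂) := by
    refine le_trans ?_ hqLC'
    nlinarith
  obtain ⟨F', hF'⟩ : ∃ F', F' = tr y₁ F := ⟨_, rfl⟩
  obtain ⟨G', hG'⟩ : ∃ G', G' = tr y₂ G := ⟨_, rfl⟩
  -- the estimate for one frequency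
  obtain ⟨T, hT⟩ : ∃ T : ℕ, (N : ℝ) ≤ L ^ T := by
    refine ⟨⌈L⌉₊, ?_⟩
    have h1 : (N : ℝ) = Real.exp L := by rw [hL, Real.exp_log hN0]
    have h2 : Real.exp L ≤ Real.exp (⌈L⌉₊ : ℝ) := Real.exp_le_exp.2 (Nat.le_ceil L)
    have h3 : Real.exp (⌈L⌉₊ : ℝ) = Real.exp 1 ^ ⌈L⌉₊ := by
      rw [← Real.exp_nat_mul, mul_one]
    rw [h1]
    refine h2.trans ?_
    rw [h3]
    have := Real.exp_one_lt_d9
    exact pow_le_pow_left₀ (Real.exp_pos _).le (by linarith) _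
  have ha : (Nat.gcd a.val q : ℝ) ≤ L ^ T := by
    refine le_trans ?_ (hqN.trans hT)
    exact_mod_cast Nat.gcd_le_right _ (NeZero.pos q)
  have hpt := pointP (a := a) h3C h3 h5 F' G' hL hL8 hN1 hqN hqLC ha
    (fun k h β hk1 hk2 hk3 hk4 => by
      simp only [hG', cs_tr hy₂]
      have := hMin q hq2 k h β (by rw [← hL]; exact hk1) (by rw [← hL]; exact hk2) hk3 hk4 y₂ hy₂
      rw [← hL] at this
      exact this)
    (fun β => by
      simp only [hG', cl_tr hy₂]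
      exact nonu hc hL hL8 hN1 hG hNc (X := A + 9) (by omega) hqN y₂ hy₂ β)
    (fun j hj a' ha' η hη => by
      have hq' : (((j + 1) * q : ℕ) : ℝ) ≤ (N : ℝ) ^ (7 / 10 - ρ₂) := by
        rw [Nat.cast_mul]
        calc ((j + 1 : ℕ) : ℝ) * q ≤ L ^ C * q := by gcongr
          _ = q * L ^ C := mul_comm _ _
          _ ≤ _ := hqLC'
      have hq'N : (((j + 1) * q : ℕ) : ℝ) ≤ N := hq'.trans hpowN
      obtain ⟨B, -, hBc, hB⟩ := hMaj ((j + 1) * q) hq'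
      rw [← hL] at hBc hB
      rw [show A + 2 * C + 9 = A' from hA'.symm]
      have hq'0 : (0 : ℝ) < (((j + 1) * q : ℕ) : ℝ) := by exact_mod_cast NeZero.pos ((j + 1) * q)
      have hall : ∑ χ : DirichletCharacter ℂ ((j + 1) * q), ‖cs ((j + 1) * q) N G' η χ‖ ^ 2 ≤
          3 * ((N : ℝ) ^ 2 / L ^ (A' + 4)) := by
        simp only [hG', cs_tr hy₂]
        rw [← sum_filter_add_sum_filter_not univ (fun χ => χ ∈ B)]
        have t1 : ∑ χ ∈ univ.filter (fun χ : DirichletCharacter ℂ ((j + 1) * q) => ¬ χ ∈ B),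
            ‖cs ((j + 1) * q) y₂ G η χ‖ ^ 2 ≤ (N : ℝ) ^ 2 / L ^ (A' + 4) := by
          refine hB η hη y₂ hy₂ _ ?_
          rw [disjoint_left]
          intro χ k1 k2
          exact (mem_filter.1 k1).2 k2
        have t2 : ∀ χ ∈ univ.filter (fun χ : DirichletCharacter ℂ ((j + 1) * q) => χ ∈ B),
            ‖cs ((j + 1) * q) y₂ G η χ‖ ^ 2 ≤ ((N : ℝ) / L ^ U₁) ^ 2 := by
          intro χ _
          refine pow_le_pow_left₀ (norm_nonneg _) ?_ 2
          by_cases hχ : L ^ K < (χ.conductor : ℝ)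
          · have := hReg j (by rw [← hL]; exact hj) χ (by rw [← hL]; exact hχ) η (by rw [← hL]; exact hη) y₂ hy₂
            rw [← hL, ← hU₁] at this
            exact this
          · rw [not_lt] at hχ
            have hs := small_cs hAp hNc (by exact_mod_cast hq'N) χ (by rw [← hL]; exact hχ)
              (by rw [← hL]; linarith) hN1 y₂ hy₂ η (C := C) (by rw [← hL]; exact hη)
            rw [← hL] at hs
            refine hs.trans ?_
            calc L ^ (K + C + 1) * (N / L ^ U) = N * (L ^ (K + C + 1) / L ^ U) := by ring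
              _ ≤ N * (1 / L ^ U₁) := by
                  have : L ^ (K + C + 1) / L ^ U ≤ 1 / L ^ U₁ := by
                    rw [div_le_div_iff₀ (by positivity) (by positivity), one_mul, ← pow_add]
                    exact pow_le_pow_right₀ hL1 (by omega)
                  gcongr
              _ = _ := by ring
        have t3 : ∑ χ ∈ univ.filter (fun χ : DirichletCharacter ℂ ((j + 1) * q) => χ ∈ B),
            ‖cs ((j + 1) * q) y₂ G η χ‖ ^ 2 ≤ (N : ℝ) ^ 2 / L ^ (A' + 4) := by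
          refine (sum_le_sum t2).trans ?_
          rw [sum_const, nsmul_eq_mul]
          have t4 : ((univ.filter (fun χ : DirichletCharacter ℂ ((j + 1) * q) => χ ∈ B)).card : ℝ) ≤
              L ^ C₃ := by
            refine le_trans ?_ hBc
            have : univ.filter (fun χ : DirichletCharacter ℂ ((j + 1) * q) => χ ∈ B) = B := by
              ext χ; simp
            rw [this]
          calc ((univ.filter (fun χ : DirichletCharacter ℂ ((j + 1) * q) => χ ∈ B)).card : ℝ) *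
                ((N : ℝ) / L ^ U₁) ^ 2 ≤ L ^ C₃ * ((N : ℝ) / L ^ U₁) ^ 2 :=
                mul_le_mul_of_nonneg_right t4 (sq_nonneg _)
            _ = (N : ℝ) ^ 2 * (L ^ C₃ / L ^ (2 * U₁)) := by
                rw [div_pow, ← pow_mul, mul_comm U₁ 2]
                ring
            _ ≤ (N : ℝ) ^ 2 * (1 / L ^ (A' + 4)) := by
                have e1 : L ^ C₃ / L ^ (2 * U₁) ≤ 1 / L ^ (A' + 4) := by
                  rw [div_le_div_iff₀ (by positivity) (by positivity), one_mul, ← pow_add]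
                  exact pow_le_pow_right₀ hL1 (by omega)
                gcongr
            _ = _ := by ring
        have t5 : 0 ≤ (N : ℝ) ^ 2 / L ^ (A' + 4) := by positivity
        linarith
      have hnon := nonu hc hL hL8 hN1 hG hNc (X := A') (by omega) hq'N y₂ hy₂ η
      simp only [← cl_tr hy₂, ← hG'] at hnon
      have e4 := P_le h5 hall hnon
      have hφ0 : (0 : ℝ) < ((j + 1) * q).totient := by
        exact_mod_cast Nat.totient_pos.2 (NeZero.pos ((j + 1) * q))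
      have e5 : ((((j + 1) * q).totient : ℝ))⁻¹ ≤ 3 * L / (((j + 1) * q : ℕ) : ℝ) := by
        have h1 := q_le_phi (NeZero.pos ((j + 1) * q))
        have h2 : Real.log (((j + 1) * q : ℕ) : ℝ) ≤ L := by
          rw [hL]
          exact Real.log_le_log hq'0 hq'N
        rw [inv_eq_one_div, div_le_div_iff₀ hφ0 hq'0, one_mul]
        refine h1.trans ?_
        rw [mul_comm (3 * L)]
        apply mul_le_mul_of_nonneg_left _ hφ0.le
        linarith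
      have e6 : ((((j + 1) * q).totient : ℝ))⁻¹ * (3 * ((N : ℝ) ^ 2 / L ^ (A' + 4))) ≤
          (N : ℝ) ^ 2 / ((((j + 1) * q : ℕ) : ℝ) * L ^ A') / 2 := by
        calc ((((j + 1) * q).totient : ℝ))⁻¹ * (3 * ((N : ℝ) ^ 2 / L ^ (A' + 4)))
            ≤ 3 * L / (((j + 1) * q : ℕ) : ℝ) * (3 * ((N : ℝ) ^ 2 / L ^ (A' + 4))) := by gcongr
          _ = (N : ℝ) ^ 2 / ((((j + 1) * q : ℕ) : ℝ) * L ^ A') * (9 / L ^ 3) := by
              rw [pow_add L A' 4]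
              field_simp
              try ring
          _ ≤ (N : ℝ) ^ 2 / ((((j + 1) * q : ℕ) : ℝ) * L ^ A') * (1 / 2) := by
              have : 9 / L ^ 3 ≤ 1 / 2 := by
                rw [div_le_div_iff₀ (by positivity) (by norm_num)]
                have : 200 ^ 3 ≤ L ^ 3 := pow_le_pow_left₀ (by norm_num) hL200 3
                linarith
              gcongr
          _ = _ := by ring
      have e7 : P ((j + 1) * q) N G' η ≤ (N : ℝ) ^ 2 / ((((j + 1) * q : ℕ) : ℝ) * L ^ A') := by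
        refine e4.trans ?_
        linarith
      have hPF : 0 ≤ P ((j + 1) * q) N F' η := P_nonneg _ _ _ _
      have hPG : 0 ≤ P ((j + 1) * q) N G' η := P_nonneg _ _ _ _
      have hX0 : 0 ≤ (N : ℝ) ^ 2 / ((((j + 1) * q : ℕ) : ℝ) * L ^ A') := by positivity
      calc ‖∑ l : ZMod ((j + 1) * q), cl ((j + 1) * q) N F' η l * (starRingEnd ℂ) (cl ((j + 1) * q) N G' η (l - a'))‖ ^ 2
          ≤ P ((j + 1) * q) N F' η * P ((j + 1) * q) N G' η := S_leC _ N F' G' η a'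
        _ ≤ P ((j + 1) * q) N F' η * ((N : ℝ) ^ 2 / ((((j + 1) * q : ℕ) : ℝ) * L ^ A')) := by gcongr
        _ = (N : ℝ) ^ 2 / ((((j + 1) * q : ℕ) : ℝ) * L ^ A') * (P ((j + 1) * q) N F' η + 0) := by ring
        _ ≤ (N : ℝ) ^ 2 / ((((j + 1) * q : ℕ) : ℝ) * L ^ A') *
            (P ((j + 1) * q) N F' η + P ((j + 1) * q) N G' η) := by gcongr)
  -- Parseval
  set D : ℝ := ((2 * N + 1 : ℕ) : ℝ) with hD
  have hD0 : 0 < D := by rw [hD]; positivity
  have hsumP : ∀ (q' : ℕ) [NeZero q'] (F : ℕ → ℂ),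
      ∑ t ∈ range (2 * N + 1), P q' N F ((t : ℝ) / D) = D * ∑ n ∈ Icc 1 N, ‖F n‖ ^ 2 :=
    fun q' _ F => (h4 q' N F F hN1).2
  set WL := ∑ n ∈ Icc 1 N, ‖F' n‖ ^ 2 with hWL
  set WF := ∑ n ∈ Icc 1 N, ‖G' n‖ ^ 2 with hWF
  have hWL0 : 0 ≤ WL := sum_nonneg fun _ _ => by positivity
  have hWF0 : 0 ≤ WF := sum_nonneg fun _ _ => by positivity
  have w1 : WL ≤ N * L ^ 8 := by
    refine le_trans (sum_le_sum fun n _ => ?_) hbF
    rw [hF']
    exact pow_le_pow_left₀ (norm_nonneg _) (norm_tr_le _ _ _) 2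
  have w2 : WF ≤ N * L ^ 8 := by
    refine le_trans (sum_le_sum fun n _ => ?_) hbG
    rw [hG']
    exact pow_le_pow_left₀ (norm_nonneg _) (norm_tr_le _ _ _) 2
  set c1 := (N : ℝ) ^ 2 / (q * L ^ (A + 9)) with hc1
  set c2 := L ^ C * ((N : ℝ) ^ 2 / (q * L ^ (A + 2 * C + 9))) with hc2
  have hc10 : 0 ≤ c1 := by positivity
  have hc20 : 0 ≤ c2 := by positivity
  have hK : ((⌊L ^ C⌋₊ : ℕ) : ℝ) ≤ L ^ C := Nat.floor_le (by positivity)
  have main := h4C q N F' G' hN1 a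
  have step : ∑ t ∈ range (2 * N + 1), ‖∑ l : ZMod q, cl q N F' ((t : ℝ) / D) l *
      (starRingEnd ℂ) (cl q N G' ((t : ℝ) / D) (l - a))‖ ^ 2 ≤ D * (c1 * (N * L ^ 8) +
        c2 * (L ^ C * (2 * (N * L ^ 8)))) := by
    calc ∑ t ∈ range (2 * N + 1), ‖∑ l : ZMod q, cl q N F' ((t : ℝ) / D) l *
        (starRingEnd ℂ) (cl q N G' ((t : ℝ) / D) (l - a))‖ ^ 2
        ≤ ∑ t ∈ range (2 * N + 1), (c1 * P q N F' ((t : ℝ) / D) +
          c2 * ∑ j ∈ range ⌊L ^ C⌋₊, (P ((j + 1) * q) N F' ((t : ℝ) / D) +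
            P ((j + 1) * q) N G' ((t : ℝ) / D))) :=
          sum_le_sum fun t _ => hpt _
      _ = c1 * (D * WL) + c2 * ∑ j ∈ range ⌊L ^ C⌋₊, (D * WL + D * WF) := by
          rw [sum_add_distrib, ← mul_sum, ← mul_sum, hsumP q F', sum_comm]
          congr 2
          refine sum_congr rfl fun j _ => ?_
          rw [sum_add_distrib, hsumP ((j + 1) * q) F', hsumP ((j + 1) * q) G']
      _ = D * (c1 * WL + c2 * ((⌊L ^ C⌋₊ : ℕ) * (WL + WF))) := by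
          rw [sum_const, card_range, nsmul_eq_mul]
          ring
      _ ≤ D * (c1 * (N * L ^ 8) + c2 * (L ^ C * (2 * (N * L ^ 8)))) := by
          have h0 : 0 ≤ WL + WF := by linarith
          have h1 : WL + WF ≤ 2 * (N * L ^ 8) := by linarith
          gcongr
  have h9 : D * ∑ n ∈ (Icc (-(N : ℤ)) N).filter (fun n : ℤ => (n : ZMod q) = a),
      ‖∑ b ∈ Icc 1 N, ∑ c ∈ Icc 1 N, if (b : ℤ) - c = n then F' b * (starRingEnd ℂ) (G' c) else 0‖ ^ 2 ≤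
        D * (c1 * (N * L ^ 8) + c2 * (L ^ C * (2 * (N * L ^ 8)))) := main.le.trans step
  have h10 := le_of_mul_le_mul_left h9 hD0
  have h11 : ∑ n ∈ (Icc (-(N : ℤ)) N).filter (fun n : ℤ => (n : ZMod q) = a),
      ‖∑ b ∈ Icc 1 y₁, ∑ c ∈ Icc 1 y₂, if (b : ℤ) - c = n then F b * (starRingEnd ℂ) (G c) else 0‖ ^ 2 =
      ∑ n ∈ (Icc (-(N : ℤ)) N).filter (fun n : ℤ => (n : ZMod q) = a),
      ‖∑ b ∈ Icc 1 N, ∑ c ∈ Icc 1 N, if (b : ℤ) - c = n then F' b * (starRingEnd ℂ) (G' c) else 0‖ ^ 2 := by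
    refine sum_congr rfl fun n _ => ?_
    rw [hF', hG', convC_tr hy₁ hy₂]
  unfold cvd
  rw [h11]
  refine h10.trans ?_
  have e1 : c1 * (N * L ^ 8) = (N : ℝ) ^ 3 / (q * L ^ A) * (1 / L) := by
    rw [hc1, show A + 9 = A + 8 + 1 by ring, pow_succ, pow_add]
    field_simp
    try ring
  have e2 : c2 * (L ^ C * (2 * (N * L ^ 8))) = (N : ℝ) ^ 3 / (q * L ^ A) * (2 / L) := by
    rw [hc2, show A + 2 * C + 9 = A + C + C + 8 + 1 by ring, pow_succ, pow_add, pow_add, pow_add]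
    field_simp
    try ring
  rw [e1, e2, ← mul_add]
  have e3 : 1 / L + 2 / L ≤ 1 := by
    rw [← add_div, div_le_one hL0]
    linarith
  calc (N : ℝ) ^ 3 / (q * L ^ A) * (1 / L + 2 / L) ≤ (N : ℝ) ^ 3 / (q * L ^ A) * 1 := by gcongr
    _ = _ := mul_one _

end Pool.Agent.T9h57.GD
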