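import Pool.Agent.T9h57.GD.Main

set_option autoImplicit false

/-! Prime pairs: all residue classes of the moduli which are not divisible by one of few integers, all of them with a
large radical. -/

namespace Pool.Agent.T9h57.GD

open Finset
open Pool.Agent.R460.GS
open Pool.Agent.R460.GQ (badH)
open Pool.Agent.T9h57.GP (log_ge_one)
open Pool.Agent.T9h57.GL
open Pool.Agent.T9h57.PK (rad)
open Pool.Agent.Y883.GJ
open Pool.Agent.Y614.GJ.Core (ev_log)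

/-- prime pairs in all residue classes of the moduli which are not divisible by one of few integers, all of them
with a large radical -/
theorem gdl_all (ρ : ℝ) (hρ : 0 < ρ) (hρ1 : ρ ≤ 1 / 3) (A B C : ℕ) :
    ∃ c : ℕ, ∀ T : ℕ, ∃ X₀ : ℕ, ∀ X : ℕ, X₀ ≤ X → ∃ D : Finset ℕ, (D.card : ℝ) ≤ Real.log X ^ c ∧
      (∀ d ∈ D, Real.log X ^ T < (rad d : ℝ)) ∧
      ∀ q : ℕ, 1 ≤ q → (q : ℝ) ≤ (X : ℝ) ^ (2 / 3 - ρ) → (∀ d ∈ D, ¬ d ∣ q) → ∀ b : ℕ,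
        ((badH B C X q b).card : ℝ) ≤ (X : ℝ) / (q * Real.log X ^ A) := by
  obtain ⟨C₀, U₂, h⟩ := gd_main errD_all ρ hρ hρ1 A B C
  have hρ2 : 0 < ρ / 2 := by positivity
  obtain ⟨C₄, Nd, hd⟩ := mL3 Pool.Agent.Y812.GJ.l2 (U₂ + 1) hρ2
  refine ⟨C₄ + C₀ + 1, fun T => ?_⟩
  obtain ⟨N₁, h1⟩ := h (T + C₀ + 1)
  obtain ⟨N₂, h2⟩ := E2_rad T C₀ (U₂ + 1) hρ2
  obtain ⟨N₃, h3⟩ := nc_LA (U₂ + 1)
  obtain ⟨N₄, h4⟩ := Filter.eventually_atTop.1 (ev_log C₀ (s := ρ / 2) hρ2 2)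
  obtain ⟨N₅, h5⟩ := Filter.eventually_atTop.1 (ev_log 1 (s := 1) (by norm_num) (2 ^ (C₄ + C₀) + 1))
  refine ⟨N₁ + N₂ + N₃ + N₄ + N₅ + Nd + 3, fun X hX => ⟨E2 (2 * X) (U₂ + 1) (T + C₀ + 1) C₀ (ρ / 2), ?_, ?_, ?_⟩⟩
  · have h6 := E2_card (N := 2 * X) (U := U₂ + 1) (K := T + C₀ + 1) (C := C₀) (C₄ := C₄) (ρ := ρ / 2)
      (log_ge_one (by omega)) (E1_card _ (fun Ψ hΨ => hd (2 * X) (by omega) Ψ (fun ψ hψ => hΨ ψ hψ)))
    refine h6.trans ?_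
    obtain ⟨h7, -⟩ := h5 X (by omega)
    have hX0 : (0 : ℝ) < X := by
      have : 0 < X := by omega
      exact_mod_cast this
    have hp : (0 : ℝ) < 2 ^ (C₄ + C₀) := by positivity
    have h8 : Real.log ((2 * X : ℕ) : ℝ) ≤ 2 * Real.log X := by
      push_cast
      rw [Real.log_mul (by norm_num) hX0.ne']
      have := Real.log_two_lt_d9
      linarith
    have h9 : 0 ≤ Real.log ((2 * X : ℕ) : ℝ) := Real.log_natCast_nonneg _
    calc Real.log ((2 * X : ℕ) : ℝ) ^ (C₄ + C₀) ≤ (2 * Real.log X) ^ (C₄ + C₀) := pow_le_pow_left₀ h9 h8 _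
      _ = 2 ^ (C₄ + C₀) * Real.log X ^ (C₄ + C₀) := mul_pow _ _ _
      _ ≤ Real.log X * Real.log X ^ (C₄ + C₀) :=
          mul_le_mul_of_nonneg_right (by linarith) (pow_nonneg (Real.log_natCast_nonneg _) _)
      _ = Real.log X ^ (C₄ + C₀ + 1) := by ring
  · intro d hdD
    refine lt_of_le_of_lt ?_ (h2 (2 * X) (by omega) d hdD)
    apply pow_le_pow_left₀ (Real.log_natCast_nonneg _)
    apply Real.log_le_log
    · have : 0 < X := by omega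
      exact_mod_cast this
    · exact_mod_cast (by omega : X ≤ 2 * X)
  · intro q hq1 hq hD b
    have hN0 : (0 : ℝ) < ((2 * X : ℕ) : ℝ) := by
      have : 0 < 2 * X := by omega
      exact_mod_cast this
    have hX0 : (0 : ℝ) ≤ X := Nat.cast_nonneg _
    obtain ⟨h5', h6⟩ := h4 (2 * X) (by omega)
    have hq' : (q : ℝ) ≤ ((2 * X : ℕ) : ℝ) ^ (2 / 3 - ρ) := by
      refine hq.trans (Real.rpow_le_rpow hX0 ?_ (by linarith))
      exact_mod_cast (by omega : X ≤ 2 * X)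
    refine h1 X (by omega) q hq1 hq (reg_of h5' (by omega) hq1 hρ2 ?_ (h3 (2 * X) (by omega)) hD) b
    calc (q : ℝ) * Real.log ((2 * X : ℕ) : ℝ) ^ C₀ ≤
        ((2 * X : ℕ) : ℝ) ^ (2 / 3 - ρ) * ((2 * X : ℕ) : ℝ) ^ (ρ / 2) := by gcongr
      _ = ((2 * X : ℕ) : ℝ) ^ (2 / 3 - ρ / 2) := by
          rw [← Real.rpow_add hN0]
          congr 1
          ring

end Pool.Agent.T9h57.GD
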